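import Pool.Agent.Helper25.HL.Goals4

/-!
# Project HL (MP_03bcbb_an), packet NLI: the Lidskii formula fails
-/

set_option autoImplicit false

noncomputable section

namespace Pool.Agent.Helper27.HL

open Pool.Agent.Helper25.HL

theorem P_ge (s : Scheme) (k : ℕ) : 2 ^ (k + 1) ≤ s.P (k + 1) := by
  induction k with
  | zero => simpa using s.hP 0
  | succ k ih =>
    have h1 := s.hg (k + 1) (by omega)
    calc 2 ^ (k + 1 + 1) ≤ (2 ^ (k + 1)) ^ 8 := by
          rw [← pow_mul]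
          exact Nat.pow_le_pow_right (by norm_num) (by omega)
      _ ≤ (s.P (k + 1)) ^ 8 := Nat.pow_le_pow_left ih 8
      _ ≤ s.P (k + 1 + 1) := h1

theorem sqrt_le (s : Scheme) (k : ℕ) :
    Real.sqrt ((s.P (k + 2) : ℝ) / s.P (k + 3)) ≤ 1 / ((2 : ℝ) ^ (k + 2)) ^ 2 := by
  have h1 : (2 : ℝ) ^ (k + 2) ≤ (s.P (k + 2) : ℝ) := by exact_mod_cast P_ge s (k + 1)
  have h2 : (s.P (k + 2) : ℝ) ^ 8 ≤ (s.P (k + 3) : ℝ) := by
    exact_mod_cast s.hg (k + 2) (by omega)
  set a : ℝ := (s.P (k + 2) : ℝ) with ha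
  set b : ℝ := (s.P (k + 3) : ℝ) with hb
  set t : ℝ := (2 : ℝ) ^ (k + 2) with ht
  have ht1 : 1 ≤ t := one_le_pow₀ (by norm_num)
  have ha0 : 0 < a := by linarith
  have hb0 : 0 < b := lt_of_lt_of_le (by positivity) h2
  apply Real.sqrt_le_iff.2
  refine ⟨by positivity, ?_⟩
  rw [div_le_iff₀ hb0]
  have h3 : a * t ^ 4 ≤ b := by
    calc a * t ^ 4 ≤ a * a ^ 4 := by gcongr
      _ = a ^ 5 := by ring
      _ ≤ a ^ 8 := pow_le_pow_right₀ (by linarith) (by norm_num)
      _ ≤ b := h2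
  have h4 : (1 / t ^ 2) ^ 2 * b = b / t ^ 4 := by
    field_simp
  rw [h4, le_div_iff₀ (by positivity)]
  exact h3

theorem two_pow_le (s : Scheme) (k : ℕ) : (2 : ℝ) ^ (s.D k).J ≤ 2 ^ k :=
  pow_le_pow_right₀ (by norm_num) (s.hJ k)

theorem nli (h1 : S_RP0) (h2 : S_RP1) (h3 : S_NUC) (h4 : S_TSQ) (h5 : S_EIG) : S_NLI := by
  intro s
  have hP1 : ∀ k, 1 ≤ s.P k := by
    intro k
    rcases k with _ | k
    · rw [s.hP0]
    · have := s.hP k
      omega
  obtain ⟨c₀, hc₀⟩ := h1 s.P s.D hP1 0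
  obtain ⟨c₁, hc₁⟩ := h1 s.P s.D hP1 1
  set c₂ : ℕ → ℝ := fun k => 40 / 2 ^ (s.D (k + 2)).J + 8 * (2 ^ (s.D (k + 1)).J +
    2 ^ (s.D (k + 2)).J + 2 ^ (s.D (k + 3)).J) * Real.sqrt ((s.P (k + 2) : ℝ) / s.P (k + 3))
    with hc₂
  set c : ℕ → ℝ := fun k => if k = 0 then c₀ else if k = 1 then c₁ else c₂ (k - 2) with hc
  have hF : ∀ k, FRep s.P s.D k (c k) := by
    intro k
    rcases k with _ | _ | k
    · exact hc₀
    · exact hc₁
    · have hT : TriH s.P s.D (k + 1) :=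
        { hk := by omega
          hP := s.hP
          hg := s.hg
          h1 := s.h1 (k + 1 + 1) (by omega)
          h2 := s.h2 (k + 1 + 1) (by omega)
          h8 := s.h8 (k + 1 + 1) (by omega)
          hr := fun i _ hi => s.hr i hi }
      exact h2 s.P s.D (k + 1) hT
  have hsum : Summable c := by
    rw [← summable_nat_add_iff 2]
    have e : (fun k => c (k + 2)) = c₂ := by
      funext k
      rfl
    rw [e, hc₂]
    apply Summable.add
    · have h6 := (summable_nat_add_iff 2).2 s.hs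
      have h7 := h6.mul_left 40
      refine h7.congr fun k => ?_
      ring
    · have hgeo : Summable (fun k : ℕ => (96 : ℝ) * (1 / 2) ^ k) :=
        (summable_geometric_of_lt_one (by norm_num) (by norm_num)).mul_left 96
      refine Summable.of_nonneg_of_le (fun k => by positivity) (fun k => ?_) hgeo
      have a1 := two_pow_le s (k + 1)
      have a2 := two_pow_le s (k + 2)
      have a3 := two_pow_le s (k + 3)
      have a4 := sqrt_le s k
      have b1 : (2 : ℝ) ^ (s.D (k + 1)).J + 2 ^ (s.D (k + 2)).J + 2 ^ (s.D (k + 3)).J ≤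
          6 * 2 ^ (k + 2) := by
        have e1 : (2 : ℝ) ^ (k + 3) = 2 * 2 ^ (k + 2) := by ring
        have e2 : (2 : ℝ) ^ (k + 2) = 2 * 2 ^ (k + 1) := by ring
        have e3 : (0 : ℝ) < 2 ^ (k + 1) := by positivity
        linarith
      calc 8 * ((2 : ℝ) ^ (s.D (k + 1)).J + 2 ^ (s.D (k + 2)).J + 2 ^ (s.D (k + 3)).J) *
            Real.sqrt ((s.P (k + 2) : ℝ) / s.P (k + 3))
          ≤ 8 * (6 * 2 ^ (k + 2)) * (1 / ((2 : ℝ) ^ (k + 2)) ^ 2) := by
            gcongr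
        _ = 48 * (1 / (2 : ℝ) ^ (k + 2)) := by
            field_simp
            ring
        _ ≤ 96 * (1 / 2) ^ k := by
            have e4 : (1 / (2 : ℝ) ^ (k + 2)) = (1 / 4) * (1 / 2) ^ k := by
              rw [pow_add, one_div_pow]
              field_simp
              norm_num
            rw [e4]
            have e5 : (0 : ℝ) < (1 / 2) ^ k := by positivity
            nlinarith
  obtain ⟨f, x, T, t1, t2, t3, t4⟩ := h3 s.P s.D c hF hsum
  obtain ⟨u1, u2⟩ := h4 s.P s.D s.hP0 hP1 T t4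
  obtain ⟨v1, v2⟩ := h5 (XX s.P s.D) T u1 u2
  exact ⟨f, x, T, t1, t2, t3, v1, v2⟩

end Pool.Agent.Helper27.HL
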