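import Pool.Agent.Helper25.HL.Goals2

/-!
# Project HL (MP_03bcbb_an), packet CH3: tail bound, projections on the side of the rows
-/

set_option autoImplicit false

noncomputable section

namespace Pool.Agent.Helper27.HL

open Pool.Agent.Helper25.HL hiding sq

/-- A vector of Gaussian integers of `l1` size at most `Z` has square norm at most `Z ^ 2`. -/
theorem sq_le_of_GI {Z q : ℕ} {β : Fin q → ℂ} (h : GI Z β) : Helper25.HL.sq β ≤ (Z : ℝ) ^ 2 := by
  obtain ⟨a, b, hab, hs⟩ := h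
  have h1 : ∀ t, ‖β t‖ ^ 2 ≤ ((|a t| + |b t| : ℤ) : ℝ) ^ 2 := by
    intro t
    rw [hab t, ← Complex.normSq_eq_norm_sq]
    have e : Complex.normSq ((a t : ℂ) + (b t : ℂ) * Complex.I) = (a t : ℝ) ^ 2 + (b t : ℝ) ^ 2 := by
      have := Complex.normSq_add_mul_I (a t : ℝ) (b t : ℝ)
      push_cast at this
      exact this
    rw [e]
    push_cast
    have h2 := abs_nonneg (a t : ℝ)
    have h3 := abs_nonneg (b t : ℝ)
    have h4 := sq_abs (a t : ℝ)
    have h5 := sq_abs (b t : ℝ)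
    nlinarith [mul_nonneg h2 h3]
  have h2 : Helper25.HL.sq β ≤ ∑ t, ((|a t| + |b t| : ℤ) : ℝ) ^ 2 := Finset.sum_le_sum fun t _ => h1 t
  have hnn : ∀ t, 0 ≤ ((|a t| + |b t| : ℤ) : ℝ) := by
    intro t
    have : 0 ≤ |a t| + |b t| := by positivity
    exact_mod_cast this
  have h3 : ∑ t, ((|a t| + |b t| : ℤ) : ℝ) ^ 2 ≤ (∑ t, ((|a t| + |b t| : ℤ) : ℝ)) ^ 2 :=
    by
      rw [pow_two, Finset.sum_mul]
      refine Finset.sum_le_sum fun t _ => ?_
      rw [pow_two]
      exact mul_le_mul_of_nonneg_left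
        (Finset.single_le_sum (f := fun t => ((|a t| + |b t| : ℤ) : ℝ)) (fun u _ => hnn u)
          (Finset.mem_univ t)) (hnn t)
  have h4 : ∑ t, ((|a t| + |b t| : ℤ) : ℝ) ≤ (Z : ℝ) := by
    have : ((∑ t, (|a t| + |b t|) : ℤ) : ℝ) ≤ ((Z : ℤ) : ℝ) := by exact_mod_cast hs
    push_cast at this
    push_cast
    exact this
  have h5 : 0 ≤ ∑ t, ((|a t| + |b t| : ℤ) : ℝ) := Finset.sum_nonneg fun t _ => hnn t
  calc Helper25.HL.sq β ≤ _ := h2
    _ ≤ _ := h3
    _ ≤ _ := pow_le_pow_left₀ h5 h4 2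

/-- For disjoint supports the squares add up. -/
theorem disj_sq {N q : ℕ} {γ : Fin N → Fin q → ℂ} (hd : Disj γ) (t : Fin q) (c : Fin N → ℂ) :
    ‖∑ i, γ i t * c i‖ ^ 2 = ∑ i, ‖γ i t‖ ^ 2 * ‖c i‖ ^ 2 := by
  by_cases h : ∃ i, γ i t ≠ 0
  · obtain ⟨i, hi⟩ := h
    have h0 : ∀ j, j ≠ i → γ j t = 0 := by
      intro j hj
      rcases hd j i hj t with h | h
      · exact h
      · exact absurd h hi
    rw [Finset.sum_eq_single i (fun j _ hj => by rw [h0 j hj, zero_mul])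
      (fun h => absurd (Finset.mem_univ i) h),
      Finset.sum_eq_single i (fun j _ hj => by rw [h0 j hj]; simp)
      (fun h => absurd (Finset.mem_univ i) h), norm_mul, mul_pow]
  · push Not at h
    simp [h]

/-- real or imaginary part -/
def prt (b : Bool) (z : ℂ) : ℝ := if b then z.re else z.im

/-- the coefficients of the forms -/
def BB {p q N D : ℕ} (γ : Fin N → Fin q → ℂ) (f : Fin D → Fin p → ℂ) :
    (Fin N × Fin D × Bool) → (Fin p × Fin q) → ℝ :=
  fun k x => prt k.2.2 (f k.2.1 x.1 * γ k.1 x.2) / Real.sqrt p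

theorem bessel {p q N D Z : ℕ} (γ : Fin N → Fin q → ℂ) (f : Fin D → Fin p → ℂ) (hp : 1 ≤ p)
    (hG : ∀ i, GI Z (γ i)) (hd : Disj γ)
    (hf : ∀ g : Fin D → ℂ, ∑ a, ‖∑ k, g k * f k a‖ ^ 2 ≤ ∑ k, ‖g k‖ ^ 2)
    (g : (Fin N × Fin D × Bool) → ℝ) :
    ∑ x, (∑ k, g k * BB γ f k x) ^ 2 ≤ ((Z : ℝ) ^ 2 / p) * ∑ k, (g k) ^ 2 := by
  have hp0 : (0 : ℝ) < p := by exact_mod_cast hp
  set G : Fin N → Fin D → ℂ := fun i k =>
    (g (i, k, true) : ℂ) - (g (i, k, false) : ℂ) * Complex.I with hGdef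
  set c : Fin N → Fin p → ℂ := fun i a => ∑ k, G i k * f k a with hc
  -- the entries
  have h1 : ∀ x : Fin p × Fin q, ∑ k, g k * BB γ f k x =
      (∑ i, γ i x.2 * c i x.1).re / Real.sqrt p := by
    intro x
    have e1 : (∑ i, γ i x.2 * c i x.1) = ∑ i, ∑ k, G i k * (f k x.1 * γ i x.2) := by
      refine Finset.sum_congr rfl fun i _ => ?_
      rw [hc, Finset.mul_sum]
      refine Finset.sum_congr rfl fun k _ => by ring
    rw [e1, Complex.re_sum, Finset.sum_div, Fintype.sum_prod_type]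
    refine Finset.sum_congr rfl fun i _ => ?_
    rw [Complex.re_sum, Finset.sum_div, Fintype.sum_prod_type]
    refine Finset.sum_congr rfl fun k _ => ?_
    rw [Fintype.sum_bool]
    simp only [BB, prt, hGdef, if_true, Bool.false_eq_true, if_false]
    simp only [Complex.mul_re, Complex.sub_re, Complex.sub_im, Complex.ofReal_re,
      Complex.ofReal_im, Complex.I_re, Complex.I_im, Complex.mul_im]
    ring
  have h2 : ∀ x : Fin p × Fin q, (∑ k, g k * BB γ f k x) ^ 2 ≤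
      (∑ i, ‖γ i x.2‖ ^ 2 * ‖c i x.1‖ ^ 2) / p := by
    intro x
    rw [h1, div_pow, Real.sq_sqrt hp0.le, ← disj_sq hd]
    apply div_le_div_of_nonneg_right _ hp0.le
    rw [← sq_abs]
    exact pow_le_pow_left₀ (abs_nonneg _) (Complex.abs_re_le_norm _) 2
  have h3 : ∀ i, ∑ a, ‖c i a‖ ^ 2 ≤ ∑ k, ‖G i k‖ ^ 2 := fun i => hf (G i)
  have h4 : ∀ i k, ‖G i k‖ ^ 2 = g (i, k, true) ^ 2 + g (i, k, false) ^ 2 := by
    intro i k
    rw [hGdef, ← Complex.normSq_eq_norm_sq]
    simp only [Complex.normSq_apply, Complex.sub_re, Complex.sub_im, Complex.ofReal_re,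
      Complex.ofReal_im, Complex.mul_re, Complex.mul_im, Complex.I_re, Complex.I_im]
    ring
  calc ∑ x, (∑ k, g k * BB γ f k x) ^ 2
      ≤ ∑ x : Fin p × Fin q, (∑ i, ‖γ i x.2‖ ^ 2 * ‖c i x.1‖ ^ 2) / p :=
        Finset.sum_le_sum fun x _ => h2 x
    _ = (∑ i, Helper25.HL.sq (γ i) * ∑ a, ‖c i a‖ ^ 2) / p := by
        rw [← Finset.sum_div, Finset.sum_comm]
        congr 1
        refine Finset.sum_congr rfl fun i _ => ?_
        rw [Fintype.sum_prod_type, Helper25.HL.sq, Finset.sum_mul_sum, Finset.sum_comm]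
    _ ≤ (∑ i, (Z : ℝ) ^ 2 * ∑ k, ‖G i k‖ ^ 2) / p := by
        apply div_le_div_of_nonneg_right _ hp0.le
        refine Finset.sum_le_sum fun i _ => ?_
        exact mul_le_mul (sq_le_of_GI (hG i)) (h3 i)
          (Finset.sum_nonneg fun a _ => sq_nonneg _) (sq_nonneg _)
    _ = ((Z : ℝ) ^ 2 / p) * ∑ k, (g k) ^ 2 := by
        rw [← Finset.mul_sum, Fintype.sum_prod_type]
        have e : ∀ i, ∑ k, ‖G i k‖ ^ 2 = ∑ y : Fin D × Bool, g (i, y) ^ 2 := by
          intro i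
          rw [Fintype.sum_prod_type]
          refine Finset.sum_congr rfl fun k _ => ?_
          rw [Fintype.sum_bool, h4]
        simp only [e]
        ring

theorem form_eq {p q N D : ℕ} (γ : Fin N → Fin q → ℂ) (f : Fin D → Fin p → ℂ)
    (ω : Fin p × Fin q → Bool) :
    ∑ i, ∑ k, ‖∑ a, f k a * RV (fun a t => ω (a, t)) (γ i) a‖ ^ 2 =
      ∑ k, (∑ x, BB γ f k x * sg (ω x)) ^ 2 := by
  rw [Fintype.sum_prod_type]
  refine Finset.sum_congr rfl fun i _ => ?_
  rw [Fintype.sum_prod_type]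
  refine Finset.sum_congr rfl fun k _ => ?_
  rw [Fintype.sum_bool]
  have e1 : (∑ a, f k a * RV (fun a t => ω (a, t)) (γ i) a) =
      ∑ x : Fin p × Fin q, ((sg (ω x) / Real.sqrt p : ℝ) : ℂ) * (f k x.1 * γ i x.2) := by
    rw [Fintype.sum_prod_type]
    refine Finset.sum_congr rfl fun a _ => ?_
    show f k a * ∑ t, (Rm (fun a t => ω (a, t)) a t : ℂ) * γ i t = _
    rw [Finset.mul_sum]
    refine Finset.sum_congr rfl fun t _ => ?_
    simp only [Rm, sg]
    ring
  rw [← Complex.normSq_eq_norm_sq, Complex.normSq_apply, e1, Complex.re_sum, Complex.im_sum]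
  have e2 : ∀ x : Fin p × Fin q, (((sg (ω x) / Real.sqrt p : ℝ) : ℂ) * (f k x.1 * γ i x.2)).re =
      BB γ f (i, k, true) x * sg (ω x) := by
    intro x
    rw [Complex.re_ofReal_mul]
    simp only [BB, prt, if_true]
    ring
  have e3 : ∀ x : Fin p × Fin q, (((sg (ω x) / Real.sqrt p : ℝ) : ℂ) * (f k x.1 * γ i x.2)).im =
      BB γ f (i, k, false) x * sg (ω x) := by
    intro x
    rw [Complex.im_ofReal_mul]
    simp only [BB, prt, Bool.false_eq_true, if_false]
    ring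
  simp only [e2, e3]
  ring

theorem ch3 (h1 : S_MG) : S_CH3 := by
  classical
  intro p q N D Z γ f hp hZ hG hd hf x
  have hp0 : (0 : ℝ) < p := by exact_mod_cast hp
  have hZ0 : (0 : ℝ) < Z := by exact_mod_cast hZ
  set s : ℝ := (Z : ℝ) ^ 2 / p with hs
  have hs0 : 0 < s := by positivity
  have h2 := h1 (Fin p × Fin q) (Fin N × Fin D × Bool) (BB γ f) s hs0
    (fun g => bessel γ f hp hG hd hf g)
  set T : (Fin p → Fin q → Bool) → ℝ := fun σ =>
    ∑ i, ∑ k, ‖∑ a, f k a * RV σ (γ i) a‖ ^ 2 with hT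
  have h3 : ∑ σ : Fin p → Fin q → Bool, Real.exp (T σ / (4 * s)) =
      ∑ ω : Fin p × Fin q → Bool,
        Real.exp ((∑ k, (∑ x, BB γ f k x * sg (ω x)) ^ 2) / (4 * s)) := by
    symm
    refine Fintype.sum_equiv (Equiv.curry _ _ _) _ _ fun ω => ?_
    rw [← form_eq]
    rfl
  rw [← h3] at h2
  have hcard1 : Fintype.card (Fin p × Fin q) = p * q := by simp
  have hcard2 : (2 : ℝ) ^ Fintype.card (Fin N × Fin D × Bool) = 4 ^ (N * D) := by
    have e : Fintype.card (Fin N × Fin D × Bool) = 2 * (N * D) := by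
      simp
      ring
    rw [e, pow_mul]
    norm_num
  rw [hcard1, hcard2] at h2
  have h4 : (cnt (fun σ : Fin p → Fin q → Bool => x ≤ T σ) : ℝ) * Real.exp (x / (4 * s)) ≤
      ∑ σ : Fin p → Fin q → Bool, Real.exp (T σ / (4 * s)) := by
    have e1 : (cnt (fun σ : Fin p → Fin q → Bool => x ≤ T σ) : ℝ) * Real.exp (x / (4 * s)) =
        ∑ σ ∈ Finset.univ.filter (fun σ : Fin p → Fin q → Bool => x ≤ T σ),
          Real.exp (x / (4 * s)) := by
      rw [Finset.sum_const, nsmul_eq_mul]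
      unfold cnt
      congr 3
    rw [e1]
    calc ∑ σ ∈ Finset.univ.filter (fun σ : Fin p → Fin q → Bool => x ≤ T σ),
          Real.exp (x / (4 * s))
        ≤ ∑ σ ∈ Finset.univ.filter (fun σ : Fin p → Fin q → Bool => x ≤ T σ),
          Real.exp (T σ / (4 * s)) := by
          refine Finset.sum_le_sum fun σ hσ => ?_
          rw [Finset.mem_filter] at hσ
          apply Real.exp_le_exp.2
          exact div_le_div_of_nonneg_right hσ.2 (by positivity)
      _ ≤ _ := Finset.sum_le_univ_sum_of_nonneg fun σ => (Real.exp_pos _).le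
  have h5 := h4.trans h2
  have e5 : x / (4 * s) = x * p / (4 * (Z : ℝ) ^ 2) := by
    rw [hs]
    field_simp
  rw [e5] at h5
  rw [Real.exp_neg, ← div_eq_mul_inv, le_div_iff₀ (Real.exp_pos _)]
  exact h5

end Pool.Agent.Helper27.HL
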